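import Pool.Agent.MWV.Stmts

/-!
# Squad MWV (problem MP_23468a_al), row NOB

The watched letter `3 d` is never between `a_d` and `a_(k+1+d)`.
-/

namespace Pool.Agent.MWV.H47

open Pool.Agent.Helper14_MV Pool.Agent.Helper2_MV Pool.Agent.MWV

theorem flat_single (N : ℕ) : (List.replicate N [0]).flatten = X N 0 := by
  induction N with
  | zero => rfl
  | succ N ih =>
    rw [List.replicate_succ, List.flatten_cons, ih]
    rfl

theorem W_inj {P Q L L' : List ℕ} (h : W P Q L = W P Q L') : L = L' := by
  unfold W at h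
  have h1 := List.append_cancel_left h
  have h2 := (List.cons.inj h1).2
  exact List.append_cancel_right h2

theorem fj_heavy (jj : ℕ → Option ℕ) (hh : ℕ → List ℕ) {a : ℕ} (h : a % 3 = 0) :
    fj jj hh a = hh a := by
  unfold fj
  rw [if_pos h]

theorem fj_light (jj : ℕ → Option ℕ) (hh : ℕ → List ℕ) (e : ℕ) :
    fj jj hh (3 * e + 1) = (jj e).elim [] (fun i => [3 * i + 1]) := by
  unfold fj
  rw [if_neg (by omega), if_pos (by omega)]
  have h : (3 * e + 1) / 3 = e := by omega
  rw [h]

theorem hd_heavy {d a : ℕ} (h : a % 3 = 0) : ∀ c ∈ hd d [0] a, c % 3 = 0 := by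
  intro c hc
  unfold hd at hc
  split_ifs at hc
  · rw [List.mem_singleton] at hc
    omega
  · rw [List.mem_singleton] at hc
    rw [hc]
    exact h

theorem count_fm (f : ℕ → List ℕ) (a a' : ℕ) (L : List ℕ)
    (h : ∀ b ∈ L, (f b).count a = if b = a' then 1 else 0) :
    (L.flatMap f).count a = L.count a' := by
  induction L with
  | nil => rfl
  | cons b L ih =>
    rw [List.flatMap_cons, List.count_append, ih (fun c hc => h c (List.mem_cons_of_mem _ hc)),
      h b (by simp)]
    by_cases hb : b = a'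
    · rw [if_pos hb, hb, List.count_cons_self]
      omega
    · rw [if_neg hb, List.count_cons_of_ne hb]
      omega

theorem core (h1 : SbwStmt) (h2 : PpmStmt) (h5 : DcbStmt) (h6 : RigStmt) {N : ℕ}
    {S : List ℕ → List ℕ → Prop} {P Q : List ℕ} {g : ℕ → Bool} {k d : ℕ} {m1 m2 : List ℕ}
    (hH : Hyp N S P Q g k) (hd1 : d ≤ 1)
    (hS : S (Wb N P Q g k d) (W (PP k P) (PP k Q) (m1 ++ (3 * d) :: m2)))
    (jj : ℕ → Option ℕ) (hP : (PP k P).filterMap jj = P) (hQ : (PP k Q).filterMap jj = Q)
    (hL : (Lb N g k d).flatMap (fj jj (hd d [0])) = X N 0 ++ (cr g [] 0 k ++ X N 0))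
    (hinj : ∀ i i' e, i ≤ k + 2 → i' ≤ k + 2 → jj i = some e → jj i' = some e → i = i')
    (hm1 : 1 ∈ m1.flatMap (fj jj (hd d [0]))) (hm2 : 3 * k + 1 ∈ m2.flatMap (fj jj (hd d [0]))) :
    False := by
  obtain ⟨f, hf⟩ : ∃ f : ℕ → List ℕ, f = fj jj (hd d [0]) := ⟨_, rfl⟩
  rw [← hf] at hL hm1 hm2
  obtain ⟨L, hLe⟩ : ∃ L : List ℕ, L = m1 ++ (3 * d) :: m2 := ⟨_, rfl⟩
  rw [← hLe] at hS
  obtain ⟨L1, e1, hok, hc⟩ := h5 N S P Q g k d _ hH hd1 hS
  have e2 : L = L1 := W_inj e1
  rw [← e2] at hok hc
  have hperm := (h2 k P Q hH.kp hH.pm).1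
  have hlt : ∀ e ∈ PP k P ++ PP k Q, e ≤ k + 2 := by
    intro e he
    have := hperm.mem_iff.1 he
    rw [List.mem_range] at this
    omega
  have hfh : ∀ a, a % 3 = 0 → ∀ c ∈ f a, c % 3 = 0 := by
    intro a ha c hc
    rw [hf, fj_heavy jj _ ha] at hc
    exact hd_heavy ha c hc
  have hf3 : f (3 * d) = [0] := by
    rw [hf, fj_heavy jj _ (by omega)]
    unfold hd
    rw [if_pos rfl]
  have hLf : L.flatMap f = m1.flatMap f ++ 0 :: m2.flatMap f := by
    rw [hLe, List.flatMap_append, List.flatMap_cons, hf3]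
    rfl
  have hS2 := hH.wo.sub f hfh hS
  have s1 : (Wb N P Q g k d).flatMap f = W P Q (X N 0 ++ (cr g [] 0 k ++ X N 0)) := by
    unfold Wb
    rw [hf, h1, hP, hQ, ← hf, hL]
  have s2 : (W (PP k P) (PP k Q) L).flatMap f =
      W P Q (m1.flatMap f ++ 0 :: m2.flatMap f) := by
    rw [← hLf, hf, h1, hP, hQ]
  rw [s1, s2] at hS2
  refine hH.nrun (h6 N S P Q g k hH.wo hH.kp hH.fr hH.pm hH.one _ _ hS2 ?_ ?_ hm1 hm2)
  · rw [← hLf]
    have hPQ : (PP k P ++ PP k Q).filterMap jj = P ++ Q := by
      rw [List.filterMap_append, hP, hQ]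
    constructor
    · intro a ha
      rw [List.mem_flatMap] at ha
      obtain ⟨b, hb, hab⟩ := ha
      rcases hok.mem b hb with h | ⟨e, he, rfl⟩
      · exact Or.inl (hfh b h a hab)
      · right
        rw [hf, fj_light] at hab
        rcases hje : jj e with _ | i
        · rw [hje] at hab
          simp at hab
        · rw [hje] at hab
          refine ⟨i, ?_, by simpa using hab⟩
          rw [← hPQ, List.mem_filterMap]
          exact ⟨e, he, hje⟩
    · intro e he
      rw [← hPQ, List.mem_filterMap] at he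
      obtain ⟨e', he', hje⟩ := he
      rw [count_fm f (3 * e + 1) (3 * e' + 1) L]
      · exact hok.one e' he'
      · intro b hb
        rcases hok.mem b hb with h | ⟨e2, he2, rfl⟩
        · rw [if_neg (by omega), List.count_eq_zero]
          intro hc2
          have := hfh b h _ hc2
          omega
        · rw [hf, fj_light]
          by_cases h : e2 = e'
          · rw [if_pos (by rw [h]), h, hje]
            simp
          · rw [if_neg (by omega)]
            rcases hje2 : jj e2 with _ | i
            · simp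
            · have hi : i ≠ e := by
                rintro rfl
                exact h (hinj e2 e' i (hlt e2 he2) (hlt e' he') hje2 hje)
              rw [List.count_eq_zero]
              simp
              omega
  · intro a ha
    have ha1 : a ∈ L.flatMap f := by
      rw [hLf]
      rw [List.mem_append] at ha
      rcases ha with ha | ha
      · exact List.mem_append_left _ ha
      · exact List.mem_append_right _ (List.mem_cons_of_mem _ ha)
    rw [List.mem_flatMap] at ha1
    obtain ⟨b, hb, hab⟩ := ha1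
    have ha2 : a ∈ (Lb N g k d).flatMap f := by
      rw [List.mem_flatMap]
      exact ⟨b, (hc b).1 hb, hab⟩
    rw [hL] at ha2
    simp only [List.mem_append] at ha2 ⊢
    tauto

theorem nob (h1 : SbwStmt) (h2 : PpmStmt) (h3 : PjmStmt) (h4 : LbfStmt) (h5 : DcbStmt)
    (h6 : RigStmt) : NobStmt := by
  intro N S P Q g k d m1 m2 hH hd1 hS ha hb
  have hk := hH.kp
  have hle : ∀ e ∈ P ++ Q, e ≤ k := by
    intro e he
    have := hH.pm.mem_iff.1 he
    rw [List.mem_range] at this
    omega
  have hPp := h3 k P hk (fun e he => hle e (List.mem_append_left _ he))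
  have hQp := h3 k Q hk (fun e he => hle e (List.mem_append_right _ he))
  obtain ⟨-, b2, -, b4, -, -⟩ := h4 N g k [0] hk
  rw [flat_single] at b2 b4
  rcases Nat.le_one_iff_eq_zero_or_eq_one.1 hd1 with rfl | rfl
  · refine core h1 h2 h5 h6 hH hd1 hS (j2 k) hPp.2.1 hQp.2.1 b2 ?_ ?_ ?_
    · intro i i' e hi hi' h h'
      unfold j2 at h h'
      split_ifs at h h' with c1 c2
      have e1 := Option.some.inj h
      have e2 := Option.some.inj h'
      omega
    · rw [List.mem_flatMap]
      refine ⟨1, ha, ?_⟩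
      have h : (1 : ℕ) = 3 * 0 + 1 := rfl
      rw [h, fj_light]
      unfold j2
      rw [if_neg (by omega)]
      simp
    · rw [List.mem_flatMap]
      refine ⟨_, hb, ?_⟩
      rw [fj_light]
      unfold j2
      rw [if_neg (by omega)]
      simp
  · refine core h1 h2 h5 h6 hH hd1 hS (j3 k) hPp.2.2.1 hQp.2.2.1 b4 ?_ ?_ ?_
    · intro i i' e hi hi' h h'
      unfold j3 at h h'
      split_ifs at h h' with c1 c2 c3 c4
      all_goals
        have e1 := Option.some.inj h
        have e2 := Option.some.inj h'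
        omega
    · rw [List.mem_flatMap]
      refine ⟨_, ha, ?_⟩
      rw [fj_light]
      unfold j3
      rw [if_neg (by omega), if_neg (by omega)]
      simp
    · rw [List.mem_flatMap]
      refine ⟨_, hb, ?_⟩
      rw [fj_light]
      unfold j3
      rw [if_neg (by omega), if_pos (by omega)]
      simp

end Pool.Agent.MWV.H47
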